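import Mathlib
import Pool.Agent.Helper71.ET.Otr
import Pool.Agent.Helper71.FC.Small

/-!
# Logarithms over arbitrary constants: no relations of bounded degree in finite codimension
-/

set_option autoImplicit false

namespace Pool.Agent.Helper71.TF

open Finset Module MvPolynomial
open Pool.Agent.H297R2 (Ex card_Ex)
open Pool.Agent.Helper71.ET

variable {k E : Type} [Field k] [Field E] [Algebra k E]

/-- the space spanned by the monomials of degree at most `D` -/
noncomputable def monW {N : ℕ} (Θ : Fin N → E) (D : ℕ) : Submodule k E :=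
  Submodule.span k (Set.range fun e : Ex (Fin N) D => ∏ i, Θ i ^ (e : Fin N →₀ ℕ) i)

theorem monW_finite {N : ℕ} (Θ : Fin N → E) (D : ℕ) : Module.Finite k (monW (k := k) Θ D) :=
  FiniteDimensional.span_of_finite k (Set.finite_range _)

theorem finrank_monW {N : ℕ} (Θ : Fin N → E) (D : ℕ) :
    finrank k (monW (k := k) Θ D) ≤ (D + N).choose N :=
  (finrank_range_le_card _).trans (card_Ex N D)

/-- relations with parameters -/
theorem otr_of {N r : ℕ} {Θ : Fin N → E} {D : ℕ} {x : Fin r → E}
    (h : ∀ P : MvPolynomial (Fin r) E, (∀ s, P.coeff s ∈ monW (k := k) Θ D) → P.totalDegree ≤ D →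
      eval x P = 0 → P = 0) : OTR k D Θ x := by
  classical
  intro Q hQ h0 y
  have hinj : Function.Injective (Sum.inr : Fin r → Fin N ⊕ Fin r) := Sum.inr_injective
  have hinl : Function.Injective (Sum.inl : Fin N → Fin N ⊕ Fin r) := Sum.inl_injective
  set Qθ : MvPolynomial (Fin r) E := ∑ d ∈ Q.support,
    monomial (Finsupp.comapDomain Sum.inr d hinj.injOn)
      (algebraMap k E (Q.coeff d) * ∏ i, Θ i ^ (d (Sum.inl i))) with hQθ
  have hdeg : ∀ d ∈ Q.support, d.degree ≤ D := fun d hd => (le_totalDegree hd).trans hQ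
  have hsum : ∀ d : Fin N ⊕ Fin r →₀ ℕ,
      d.degree = ∑ i, d (Sum.inl i) + ∑ i, d (Sum.inr i) := fun d => by
    rw [Finsupp.degree_eq_sum, Fintype.sum_sum_type]
  have hev : ∀ y : Fin r → E, MvPolynomial.eval y Qθ = aeval (Sum.elim Θ y) Q := by
    intro y
    rw [hQθ, map_sum, aeval_def, eval₂_eq']
    apply Finset.sum_congr rfl
    intro d _
    rw [MvPolynomial.eval_monomial, Finsupp.prod_fintype _ _ (fun _ => pow_zero _),
      Fintype.prod_sum_type]
    simp only [Sum.elim_inl, Sum.elim_inr, Finsupp.comapDomain_apply]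
    rw [mul_assoc]
  have hz : Qθ = 0 := by
    apply h
    · intro s
      rw [hQθ, coeff_sum]
      apply Submodule.sum_mem
      intro d hd
      rw [coeff_monomial]
      split_ifs
      · have h4 : ∏ i, Θ i ^ (d (Sum.inl i)) ∈ monW (k := k) Θ D := by
          refine Submodule.subset_span ⟨⟨Finsupp.comapDomain Sum.inl d hinl.injOn, ?_⟩, ?_⟩
          · rw [Finsupp.degree_eq_sum]
            simp only [Finsupp.comapDomain_apply]
            have := hdeg d hd
            rw [hsum] at this
            omega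
          · simp only [Finsupp.comapDomain_apply]
        rw [← Algebra.smul_def]
        exact (monW (k := k) Θ D).smul_mem (Q.coeff d) h4
      · exact Submodule.zero_mem _
    · rw [hQθ]
      apply totalDegree_finsetSum_le
      intro d hd
      refine (totalDegree_monomial_le _ _).trans (le_trans ?_ (hdeg d hd))
      rw [Finsupp.sum_fintype _ _ (fun _ => rfl), hsum]
      simp only [Finsupp.comapDomain_apply]
      exact Nat.le_add_left _ _
    · rw [hev]
      exact h0
  rw [← hev, hz, map_zero]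

/-- change of the indices of the parameters -/
theorem OTR.reindex {D : ℕ} {P P' σ : Type} {θ : P → E} {x : σ → E} (f : P' → P)
    (h : OTR k D θ x) : OTR k D (θ ∘ f) x := by
  classical
  intro Q hQ h0 y
  have key : ∀ y : σ → E, aeval (Sum.elim θ y) (rename (Sum.map f id) Q) =
      aeval (Sum.elim (θ ∘ f) y) Q := by
    intro y
    rw [aeval_rename]
    congr 2
    funext p
    rcases p with p | p <;> rfl
  have h1 := h (rename (Sum.map f id) Q) ((totalDegree_rename_le _ _).trans hQ) (by
    rw [key]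
    exact h0) y
  rw [key] at h1
  exact h1

/-- the logarithms of algebraic numbers -/
noncomputable abbrev Lg : Submodule ℚ ℂ :=
  Submodule.span ℚ {z : ℂ | IsAlgebraic ℚ (Complex.exp z)}

/-- the field of algebraic numbers -/
noncomputable abbrev Qa : IntermediateField ℚ ℂ := algebraicClosure ℚ ℂ

theorem two_pi_mem : (2 * Real.pi * Complex.I : ℂ) ∈ Lg := by
  refine Submodule.subset_span ?_
  change IsAlgebraic ℚ (Complex.exp (2 * Real.pi * Complex.I))
  rw [Complex.exp_two_pi_mul_I]
  exact isAlgebraic_one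

/-- **Logarithms over arbitrary constants.** -/
theorem tor_fin (N s D : ℕ) (hD : 2 ≤ D) (Θ : Fin N → ℂ)
    (hπ : (2 * Real.pi * Complex.I : ℂ) ∈ Aff Qa Θ) :
    ∃ Λ U : Submodule ℚ ℂ, (2 * Real.pi * Complex.I : ℂ) ∈ Λ ∧ Λ ⊔ U = Lg ∧ Module.Finite ℚ U ∧
      finrank ℚ U ≤ (D + N).choose N * (D + s).choose s - 2 * s ∧
      ∀ r ≤ s, ∀ t : Fin r → ℂ, (∀ l, t l ∈ Λ) →
        (∀ b : Fin r → ℚ, ∑ l, (b l : ℂ) * t l ∈
          Submodule.span ℚ {(2 * Real.pi * Complex.I : ℂ)} → b = 0) →
        OTR Qa D Θ t := by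
  classical
  have := Pool.Agent.Y787.uncountable_complex
  have hWf : Module.Finite Qa (monW (k := Qa) Θ D) := monW_finite Θ D
  obtain ⟨Λ, U, -, hΛU, hUf, hUr, hno⟩ := Pool.Agent.Helper71.FC.exists_noRel
      Pool.Agent.Y787.hypC_complex.hyp
      Pool.Agent.Y787.hypC_complex.one Lg
      (fun x hx => Pool.Agent.H301R2.SSE.Lt_log
        ((Pool.Agent.Helper71.MLog.mem_span_logs x).1 hx)) (by
        intro r w hw hli
        exact Pool.Agent.Y787.li_consC w
          (fun j => (Pool.Agent.Helper71.MLog.mem_span_logs (w j)).1 (hw j)) hli)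
      Pool.Agent.Helper71.MLog.countable_logs s D hD (monW (k := Qa) Θ D) ⊥ bot_le inferInstance
      (Pool.Agent.Helper71.FC.noRel_bot s D _)
  have hΛL : Λ ≤ Lg := hΛU ▸ le_sup_left
  refine ⟨Λ ⊔ Submodule.span ℚ {(2 * Real.pi * Complex.I : ℂ)}, U,
    Submodule.mem_sup_right (Submodule.mem_span_singleton_self _), ?_, hUf,
    hUr.trans (Nat.sub_le_sub_right (Nat.mul_le_mul_right _ (finrank_monW Θ D)) _), ?_⟩
  · refine le_antisymm (sup_le (sup_le hΛL ?_) (hΛU ▸ le_sup_right)) ?_
    · rw [Submodule.span_singleton_le_iff_mem]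
      exact two_pi_mem
    · rw [← hΛU]
      exact sup_le_sup_right le_sup_left U
  · intro r hr t ht hti
    have h1 : ∀ l, ∃ (x : ℂ) (c : ℚ), x ∈ Λ ∧ t l = x + (c : ℂ) * (2 * Real.pi * Complex.I) := by
      intro l
      obtain ⟨x, hx, z, hz, hxz⟩ := Submodule.mem_sup.1 (ht l)
      obtain ⟨c, rfl⟩ := Submodule.mem_span_singleton.1 hz
      exact ⟨x, c, hx, by rw [← hxz, Rat.smul_def]⟩
    choose x c hx htx using h1
    have hxi : LinearIndependent ℚ x := by
      rw [Fintype.linearIndependent_iff]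
      intro b hb l
      refine congrFun (hti b ?_) l
      refine Submodule.mem_span_singleton.2 ⟨∑ l, b l * c l, ?_⟩
      have h2 : ∑ l, (b l : ℂ) * x l = 0 := by
        rw [← hb]
        exact Finset.sum_congr rfl fun l _ => (Rat.smul_def _ _).symm
      simp only [htx, mul_add, Finset.sum_add_distrib, h2, zero_add]
      rw [Rat.smul_def]
      push_cast
      rw [Finset.sum_mul]
      exact Finset.sum_congr rfl fun l _ => by ring
    have hcons : LinearIndependent Qa (Fin.cons 1 x : Fin (r + 1) → ℂ) :=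
      Pool.Agent.Y787.li_consC x
        (fun j => (Pool.Agent.Helper71.MLog.mem_span_logs (x j)).1 (hΛL (hx j))) hxi
    have h3 : OTR Qa D Θ x := otr_of fun P hP hPD hPx =>
      hno r hr x (fun i => Submodule.subset_span (Or.inr (hx i))) hcons P hP hPD hPx
    refine h3.affine (fun i s => if i = s then 1 else 0)
      (fun l => (c l : ℂ) * (2 * Real.pi * Complex.I)) ?_ ?_ ?_
    · intro l
      have h4 := (Aff Qa Θ).smul_mem ((c l : ℚ) : Qa) hπ
      rw [Algebra.smul_def, map_ratCast] at h4
      exact h4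
    · intro l
      rw [htx l]
      congr 1
      rw [Finset.sum_eq_single l]
      · rw [if_pos rfl, map_one, one_mul]
      · intro b _ hb
        rw [if_neg (Ne.symm hb), map_zero, zero_mul]
      · intro h; exact absurd (Finset.mem_univ _) h
    · intro y
      refine ⟨y, fun l => ?_⟩
      rw [Finset.sum_eq_single l]
      · rw [if_pos rfl, map_one, one_mul]
      · intro b _ hb
        rw [if_neg (Ne.symm hb), map_zero, zero_mul]
      · intro h; exact absurd (Finset.mem_univ _) h

/-- **Logarithms over arbitrary constants.** -/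
theorem tor (P : Type) [Fintype P] (s D : ℕ) (hD : 2 ≤ D) (Θ : P → ℂ)
    (hπ : (2 * Real.pi * Complex.I : ℂ) ∈ Aff Qa Θ) :
    ∃ Λ U : Submodule ℚ ℂ, (2 * Real.pi * Complex.I : ℂ) ∈ Λ ∧ Λ ⊔ U = Lg ∧ Module.Finite ℚ U ∧
      finrank ℚ U ≤ (D + Fintype.card P).choose D * (D + s).choose s - 2 * s ∧
      ∀ r ≤ s, ∀ t : Fin r → ℂ, (∀ l, t l ∈ Λ) →
        (∀ b : Fin r → ℚ, ∑ l, (b l : ℂ) * t l ∈
          Submodule.span ℚ {(2 * Real.pi * Complex.I : ℂ)} → b = 0) →
        OTR Qa D Θ t := by
  classical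
  set e : Fin (Fintype.card P) ≃ P := (Fintype.equivFin P).symm with he
  have hch : (D + Fintype.card P).choose (Fintype.card P) = (D + Fintype.card P).choose D := by
    have := Nat.choose_symm_add (a := D) (b := Fintype.card P)
    exact this.symm
  have h1 : Set.range (Θ ∘ e) = Set.range Θ := e.surjective.range_comp Θ
  obtain ⟨Λ, U, h2, h3, h4, h5, h6⟩ := tor_fin (Fintype.card P) s D hD (Θ ∘ e) (by
    unfold Aff
    rw [h1]
    exact hπ)
  rw [hch] at h5
  refine ⟨Λ, U, h2, h3, h4, h5, fun r hr t ht hti => ?_⟩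
  have h7 := OTR.reindex e.symm (h6 r hr t ht hti)
  have h8 : (Θ ∘ e) ∘ e.symm = Θ := by
    funext p
    simp
  rwa [h8] at h7

end Pool.Agent.Helper71.TF
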