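import Mathlib
import Pool.Agent.Helper71.TF.Tor

/-!
# No new numbers: values of polynomials and of quotients
-/

set_option autoImplicit false

namespace Pool.Agent.Helper71.TF

open Finset Module MvPolynomial
open Pool.Agent.H297R2 (Ex card_Ex)
open Pool.Agent.Helper71.ET
open Pool.Agent.W245.EB (totalDegree_bind_le)

variable {k E : Type} [Field k] [Field E] [Algebra k E]

/-- an independent system which contains `1` -/
theorem exists_li {n : ℕ} (y : Fin n → E) : ∃ m ≤ n, ∃ (u : Fin m → E) (a : Fin n → k)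
    (A : Fin n → Fin m → k), LinearIndependent k (Fin.cons 1 u : Fin (m + 1) → E) ∧
      (∀ j, ∃ i, u j = y i) ∧ ∀ i, y i = algebraMap k E (a i) + ∑ j, algebraMap k E (A i j) * u j := by
  classical
  obtain ⟨b, hb1, hb2, hb3, hb4⟩ := exists_linearIndepOn_id_extension (K := k) (s := {(1 : E)})
    (t := insert 1 (Set.range y)) (LinearIndepOn.singleton (R := k) (v := id) (i := (1 : E)) one_ne_zero)
    (Set.singleton_subset_iff.2 (Or.inl rfl))
  have hfin : b.Finite := (Set.Finite.insert 1 (Set.finite_range y)).subset hb1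
  set c : Finset E := (hfin.toFinset).erase 1 with hc
  have hcy : ∀ x ∈ c, ∃ i, y i = x := by
    intro x hx
    rw [hc, Finset.mem_erase, Set.Finite.mem_toFinset] at hx
    rcases hb1 hx.2 with h | h
    · exact absurd h hx.1
    · exact h
  have hbc : b = insert 1 (c : Set E) := by
    rw [hc, Finset.coe_erase, Set.Finite.coe_toFinset, Set.insert_sdiff_singleton,
      Set.insert_eq_of_mem (hb2 (Set.mem_singleton 1))]
  have h1c : (1 : E) ∉ c := Finset.notMem_erase _ _
  let e : Fin c.card ≃ c := c.equivFin.symm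
  let u : Fin c.card → E := fun j => (e j : E)
  have hur : Set.range u = (c : Set E) := by
    ext x
    constructor
    · rintro ⟨j, rfl⟩
      exact (e j).2
    · intro hx
      exact ⟨e.symm ⟨x, hx⟩, by simp [u]⟩
  have hcard : c.card ≤ n := by
    have h1 : c ⊆ Finset.univ.image y := by
      intro x hx
      obtain ⟨i, hi⟩ := hcy x hx
      exact Finset.mem_image.2 ⟨i, Finset.mem_univ _, hi⟩
    have h2 := (Finset.card_le_card h1).trans Finset.card_image_le
    simpa using h2
  have hli : LinearIndependent k (Fin.cons 1 u : Fin (c.card + 1) → E) := by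
    rw [linearIndependent_finCons]
    constructor
    · have h1 : LinearIndepOn k id (c : Set E) := hb4.mono (by rw [hbc]; exact Set.subset_insert _ _)
      have h2 := LinearIndependent.comp h1 e e.injective
      exact h2
    · rw [hur]
      rw [hbc] at hb4
      exact ((linearIndepOn_id_insert (by exact_mod_cast h1c)).1 hb4).2
  have hsp : ∀ i, ∃ (a : k) (A : Fin c.card → k),
      y i = algebraMap k E a + ∑ j, algebraMap k E (A j) * u j := by
    intro i
    have h1 : y i ∈ Submodule.span k b := hb3 (Or.inr ⟨i, rfl⟩)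
    rw [hbc] at h1
    obtain ⟨a, z, hz, hyz⟩ := Submodule.mem_span_insert.1 h1
    rw [← hur] at hz
    obtain ⟨A, hA⟩ := (Submodule.mem_span_range_iff_exists_fun k).1 hz
    refine ⟨a, A, ?_⟩
    rw [hyz, ← hA, Algebra.smul_def, mul_one]
    congr 1
    exact Finset.sum_congr rfl fun j _ => Algebra.smul_def _ _
  choose a A hA using hsp
  refine ⟨c.card, hcard, u, a, A, hli, fun j => ?_, hA⟩
  obtain ⟨i, hi⟩ := hcy _ (e j).2
  exact ⟨i, hi.symm⟩

/-- specialization of some of the variables -/
theorem spec {N r : ℕ} (Θ : Fin N → E) {D : ℕ} (Q : MvPolynomial (Fin N ⊕ Fin r) k)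
    (hQ : Q.totalDegree ≤ D) : ∃ G : MvPolynomial (Fin r) E, (∀ s, G.coeff s ∈ monW (k := k) Θ D) ∧
      G.totalDegree ≤ D ∧ ∀ y, eval y G = aeval (Sum.elim Θ y) Q := by
  classical
  have hinj : Function.Injective (Sum.inr : Fin r → Fin N ⊕ Fin r) := Sum.inr_injective
  have hinl : Function.Injective (Sum.inl : Fin N → Fin N ⊕ Fin r) := Sum.inl_injective
  have hdeg : ∀ d ∈ Q.support, d.degree ≤ D := fun d hd => (le_totalDegree hd).trans hQ
  have hsum : ∀ d : Fin N ⊕ Fin r →₀ ℕ,
      d.degree = ∑ i, d (Sum.inl i) + ∑ i, d (Sum.inr i) := fun d => by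
    rw [Finsupp.degree_eq_sum, Fintype.sum_sum_type]
  refine ⟨∑ d ∈ Q.support,
    monomial (Finsupp.comapDomain Sum.inr d hinj.injOn)
      (algebraMap k E (Q.coeff d) * ∏ i, Θ i ^ (d (Sum.inl i))), ?_, ?_, ?_⟩
  · intro s
    rw [coeff_sum]
    apply Submodule.sum_mem
    intro d hd
    rw [coeff_monomial]
    split_ifs
    · have h4 : ∏ i, Θ i ^ (d (Sum.inl i)) ∈ monW (k := k) Θ D := by
        refine Submodule.subset_span ⟨⟨Finsupp.comapDomain Sum.inl d hinl.injOn, ?_⟩, ?_⟩
        · rw [Finsupp.degree_eq_sum]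
          simp only [Finsupp.comapDomain_apply]
          have := hdeg d hd
          rw [hsum] at this
          omega
        · simp only [Finsupp.comapDomain_apply]
      rw [← Algebra.smul_def]
      exact (monW (k := k) Θ D).smul_mem (Q.coeff d) h4
    · exact Submodule.zero_mem _
  · apply totalDegree_finsetSum_le
    intro d hd
    refine (totalDegree_monomial_le _ _).trans (le_trans ?_ (hdeg d hd))
    rw [Finsupp.sum_fintype _ _ (fun _ => rfl), hsum]
    simp only [Finsupp.comapDomain_apply]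
    exact Nat.le_add_left _ _
  · intro y
    rw [map_sum, aeval_def, eval₂_eq']
    apply Finset.sum_congr rfl
    intro d _
    rw [MvPolynomial.eval_monomial, Finsupp.prod_fintype _ _ (fun _ => pow_zero _),
      Fintype.prod_sum_type]
    simp only [Sum.elim_inl, Sum.elim_inr, Finsupp.comapDomain_apply]
    rw [mul_assoc]

/-- the space of the coefficients -/
noncomputable def quoW {N r : ℕ} (Θ : Fin N → E) (z : Fin r → E) (D D' : ℕ) : Submodule k E :=
  Submodule.span k (Set.range (Sum.elim
    (fun p : Fin r × Ex (Fin N) D' => z p.1 * ∏ i, Θ i ^ (p.2 : Fin N →₀ ℕ) i)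
    (fun e : Ex (Fin N) D => ∏ i, Θ i ^ (e : Fin N →₀ ℕ) i)))

theorem quoW_finite {N r : ℕ} (Θ : Fin N → E) (z : Fin r → E) (D D' : ℕ) :
    Module.Finite k (quoW (k := k) Θ z D D') :=
  FiniteDimensional.span_of_finite k (Set.finite_range _)

theorem finrank_quoW {N r : ℕ} (Θ : Fin N → E) (z : Fin r → E) (D D' : ℕ) :
    finrank k (quoW (k := k) Θ z D D') ≤ r * (D' + N).choose N + (D + N).choose N := by
  refine (finrank_range_le_card _).trans ?_
  rw [Fintype.card_sum, Fintype.card_prod, Fintype.card_fin]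
  exact Nat.add_le_add (Nat.mul_le_mul_left _ (card_Ex N D')) (card_Ex N D)

theorem monW_le_quoW {N r : ℕ} (Θ : Fin N → E) (z : Fin r → E) (D D' : ℕ) :
    monW (k := k) Θ D ≤ quoW Θ z D D' := by
  refine Submodule.span_le.2 ?_
  rintro _ ⟨e, rfl⟩
  exact Submodule.subset_span ⟨Sum.inr e, rfl⟩

theorem mul_mem_quoW {N r : ℕ} (Θ : Fin N → E) (z : Fin r → E) (D : ℕ) {D' D'' : ℕ} (hD : D'' ≤ D')
    (j : Fin r) {w : E} (hw : w ∈ monW (k := k) Θ D'') : z j * w ∈ quoW (k := k) Θ z D D' := by
  induction hw using Submodule.span_induction with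
  | mem x hx =>
    obtain ⟨e, rfl⟩ := hx
    exact Submodule.subset_span ⟨Sum.inl (j, ⟨e.1, e.2.trans hD⟩), rfl⟩
  | zero => rw [mul_zero]; exact Submodule.zero_mem _
  | add x y _ _ hx hy => rw [mul_add]; exact Submodule.add_mem _ hx hy
  | smul a x _ hx =>
    rw [mul_smul_comm]
    exact Submodule.smul_mem _ a hx

/-- **Values of quotients.** If tuples `u` independent together with `1` satisfy no relation of degree
at most `D` with coefficients in `quoW ξ z D D'`, and the `y i` are sums of elements of the space and of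
combinations of the `ξ`, then no `z j` is a new value. -/
theorem no_new [Infinite k] {q n r : ℕ} {ξ : Fin q → E} {z : Fin r → E} {D D' : ℕ}
    (hDD : D' ≤ D)
    {y y₀ : Fin n → E} (hy : ∀ i, y i - y₀ i ∈ Aff k ξ)
    (hno : ∀ m ≤ n, ∀ u : Fin m → E, (∀ j, ∃ i, u j = y₀ i) →
      LinearIndependent k (Fin.cons 1 u : Fin (m + 1) → E) →
      ∀ P : MvPolynomial (Fin m) E, (∀ s, P.coeff s ∈ quoW (k := k) ξ z D D') → P.totalDegree ≤ D →
        eval u P = 0 → P = 0) (j : Fin r) (A B : MvPolynomial (Fin q ⊕ Fin n) k)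
    (hA : A.totalDegree ≤ D) (hB : B.totalDegree ≤ D') (hB0 : aeval (Sum.elim ξ y) B ≠ 0)
    (h : z j * aeval (Sum.elim ξ y) B = aeval (Sum.elim ξ y) A) :
    ∃ g : Fin n → MvPolynomial (Fin q) k, (∀ i, (g i).totalDegree ≤ 1) ∧
      aeval ξ (bind₁ (Sum.elim X g) B) ≠ 0 ∧
      z j * aeval ξ (bind₁ (Sum.elim X g) B) = aeval ξ (bind₁ (Sum.elim X g) A) := by
  classical
  obtain ⟨m, hm, u, a, M, hli, huy, hrep⟩ := exists_li (k := k) y₀
  choose g hg1 hg2 using fun i => Aff.poly (hy i)
  let G : Fin q ⊕ Fin n → MvPolynomial (Fin q ⊕ Fin m) k := Sum.elim (fun p => X (Sum.inl p))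
    (fun i => rename Sum.inl (g i) + MvPolynomial.C (a i) +
      ∑ l, MvPolynomial.C (M i l) * X (Sum.inr l))
  have hG1 : ∀ p, (G p).totalDegree ≤ 1 := by
    rintro (p | i)
    · simp only [G, Sum.elim_inl]
      rw [totalDegree_X]
    · simp only [G, Sum.elim_inr]
      refine (totalDegree_add _ _).trans (max_le ((totalDegree_add _ _).trans (max_le
        ((totalDegree_rename_le _ _).trans (hg1 i)) ?_)) ?_)
      · rw [totalDegree_C]
        exact Nat.zero_le _
      · refine totalDegree_finsetSum_le fun s _ => ?_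
        refine (totalDegree_mul _ _).trans ?_
        rw [totalDegree_C, totalDegree_X]
  have hGe : ∀ U : Fin m → E, (fun p => aeval (Sum.elim ξ U) (G p)) =
      Sum.elim ξ (fun i => (y i - y₀ i) + algebraMap k E (a i) + ∑ l, algebraMap k E (M i l) * U l) := by
    intro U
    funext p
    rcases p with p | i
    · simp only [G, Sum.elim_inl, aeval_X]
    · simp only [G, Sum.elim_inr, map_add, map_sum, map_mul, aeval_X, aeval_C, aeval_rename]
      rw [← hg2 i]
      rfl
  have hGu : (fun p => aeval (Sum.elim ξ u) (G p)) = Sum.elim ξ y := by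
    rw [hGe]
    funext p
    rcases p with p | i
    · rfl
    · simp only [Sum.elim_inr]
      rw [add_assoc, ← hrep i, sub_add_cancel]
  obtain ⟨PA, hPA1, hPA2, hPA3⟩ := spec (k := k) ξ (D := D) (bind₁ G A)
    ((totalDegree_bind_le G hG1 A).trans hA)
  obtain ⟨PB, hPB1, hPB2, hPB3⟩ := spec (k := k) ξ (D := B.totalDegree) (bind₁ G B)
    (totalDegree_bind_le G hG1 B)
  have hzero : MvPolynomial.C (z j) * PB - PA = 0 := by
    refine hno m hm u huy hli _ (fun s => ?_) ?_ ?_
    · rw [coeff_sub, coeff_C_mul]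
      exact Submodule.sub_mem _ (mul_mem_quoW ξ z D hB j (hPB1 s)) (monW_le_quoW ξ z D D' (hPA1 s))
    · refine (totalDegree_sub _ _).trans (max_le ?_ hPA2)
      refine (totalDegree_mul _ _).trans ?_
      rw [totalDegree_C, zero_add]
      exact hPB2.trans (hB.trans hDD)
    · rw [map_sub, map_mul, eval_C, hPA3, hPB3, aeval_bind, aeval_bind, hGu, h, sub_self]
  have hall : ∀ U : Fin m → E, z j * aeval (Sum.elim ξ U) (bind₁ G B) =
      aeval (Sum.elim ξ U) (bind₁ G A) := by
    intro U
    have h1 := congrArg (eval U) hzero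
    rw [map_sub, map_mul, eval_C, hPA3, hPB3, map_zero] at h1
    exact sub_eq_zero.1 h1
  have hPB0 : PB ≠ 0 := by
    rintro rfl
    apply hB0
    rw [← hGu, ← aeval_bind, ← hPB3, map_zero]
  obtain ⟨c, hc⟩ : ∃ c : Fin m → k, eval (fun l => algebraMap k E (c l)) PB ≠ 0 := by
    by_contra hcon
    push Not at hcon
    apply hPB0
    refine MvPolynomial.funext_set (fun _ : Fin m => Set.range (algebraMap k E))
      (fun _ => Set.infinite_range_of_injective (algebraMap k E).injective) fun Z hZ => ?_
    choose c hc using fun t => hZ t (Set.mem_univ t)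
    have h3 : Z = fun t => algebraMap k E (c t) := funext fun t => (hc t).symm
    rw [map_zero, h3]
    exact hcon c
  let g' : Fin n → MvPolynomial (Fin q) k := fun i => g i + MvPolynomial.C (a i) +
    ∑ l, MvPolynomial.C (M i l) * MvPolynomial.C (c l)
  have hfin : ∀ Q : MvPolynomial (Fin q ⊕ Fin n) k, aeval ξ (bind₁ (Sum.elim X g') Q) =
      aeval (Sum.elim ξ (fun l => algebraMap k E (c l))) (bind₁ G Q) := by
    intro Q
    rw [aeval_bind, aeval_bind, hGe]
    congr 2
    funext p
    rcases p with p | i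
    · simp only [Sum.elim_inl, aeval_X]
    · simp only [Sum.elim_inr, g', map_add, map_sum, map_mul, aeval_C]
      rw [← hg2 i]
  refine ⟨g', fun i => ?_, ?_, ?_⟩
  · refine (totalDegree_add _ _).trans (max_le ((totalDegree_add _ _).trans (max_le (hg1 i) ?_)) ?_)
    · rw [totalDegree_C]
      exact Nat.zero_le _
    · refine totalDegree_finsetSum_le fun s _ => ?_
      refine (totalDegree_mul _ _).trans ?_
      rw [totalDegree_C, totalDegree_C]
      exact Nat.zero_le _
  · rw [hfin, ← hPB3]
    exact hc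
  · rw [hfin, hfin]
    exact hall _

end Pool.Agent.Helper71.TF
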