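import Mathlib
import Pool.Graph.R_seed8.HP778.KZ5
import Pool.Agent.Helper71.TF.Ind

/-!
# One-dimensional periods: subspaces of finite codimension
-/

set_option autoImplicit false

namespace Pool.Agent.Helper71.TF

open Finset Module MvPolynomial
open Pool.Agent.HP778.KZ (periods1 periods1_le)
open Pool.Agent.H301R2.SSE (QB mem_QB Lt Lt_mul Lt_one Lt_log)
open Pool.Agent.Helper71.ET

section codim

variable {k E : Type} [Field k] [AddCommGroup E] [Module k E]

theorem codim_inf {M A B : Submodule k E} (hM : M ≤ A ⊔ B) [Module.Finite k B] :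
    ∃ U : Submodule k E, U ≤ M ∧ (A ⊓ M) ⊔ U = M ∧ Module.Finite k U ∧ finrank k U ≤ finrank k B := by
  classical
  obtain ⟨C, hC⟩ := Submodule.exists_isCompl (Submodule.comap M.subtype (A ⊓ M))
  have hUM : C.map M.subtype ≤ M := by
    rintro _ ⟨x, -, rfl⟩
    exact x.2
  have hdis : ∀ x ∈ C.map M.subtype, x ∈ A → x = 0 := by
    rintro _ ⟨x, hx, rfl⟩ hxA
    have h1 : x ∈ Submodule.comap M.subtype (A ⊓ M) ⊓ C := ⟨⟨hxA, x.2⟩, hx⟩
    rw [hC.inf_eq_bot] at h1
    rw [Submodule.mem_bot] at h1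
    rw [h1]
    rfl
  have hmap : ∀ x : C.map M.subtype, A.mkQ x ∈ B.map A.mkQ := by
    intro x
    obtain ⟨a, ha, b, hb, hab⟩ := Submodule.mem_sup.1 (hM (hUM x.2))
    refine ⟨b, hb, ?_⟩
    rw [← hab, map_add]
    have : A.mkQ a = 0 := by simpa using ha
    rw [this, zero_add]
  let f : C.map M.subtype →ₗ[k] B.map A.mkQ :=
    LinearMap.codRestrict (B.map A.mkQ) (A.mkQ ∘ₗ (C.map M.subtype).subtype) hmap
  have hf : Function.Injective f := by
    rw [← LinearMap.ker_eq_bot, LinearMap.ker_eq_bot']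
    intro x hx
    have h1 : A.mkQ (x : E) = 0 := congrArg Subtype.val hx
    have h2 : (x : E) ∈ A := by simpa using h1
    exact Subtype.ext (hdis x x.2 h2)
  have hfin : Module.Finite k (B.map A.mkQ) := inferInstance
  refine ⟨C.map M.subtype, hUM, ?_, Module.Finite.of_injective f hf, ?_⟩
  · have h1 : A ⊓ M = (Submodule.comap M.subtype (A ⊓ M)).map M.subtype := by
      rw [Submodule.map_comap_eq, Submodule.range_subtype]
      exact (inf_eq_right.2 inf_le_right).symm
    conv_lhs => rw [h1]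
    rw [← Submodule.map_sup, hC.sup_eq_top, Submodule.map_top, Submodule.range_subtype]
  · exact (LinearMap.finrank_le_finrank_of_injective hf).trans (Submodule.finrank_map_le _ _)

end codim

theorem span_rat {U : Submodule ℚ ℂ} [Module.Finite ℚ U] :
    Module.Finite Qa (Submodule.span Qa (U : Set ℂ)) ∧
      finrank Qa (Submodule.span Qa (U : Set ℂ)) ≤ finrank ℚ U := by
  classical
  set b := Module.finBasis ℚ U with hb
  have h1 : Submodule.span Qa (U : Set ℂ) =
      Submodule.span Qa (Set.range fun i => ((b i : U) : ℂ)) := by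
    refine le_antisymm (Submodule.span_le.2 ?_) (Submodule.span_mono ?_)
    · intro x hx
      have h2 := congrArg (fun z : U => (z : ℂ)) (b.sum_repr ⟨x, hx⟩)
      simp only [Submodule.coe_sum, Submodule.coe_smul] at h2
      rw [SetLike.mem_coe, ← h2]
      refine Submodule.sum_mem _ fun i _ => ?_
      have h3 : (b.repr ⟨x, hx⟩ i) • ((b i : U) : ℂ) = ((b.repr ⟨x, hx⟩ i : ℚ) : Qa) • ((b i : U) : ℂ) := by
        rw [Algebra.smul_def ((b.repr ⟨x, hx⟩ i : ℚ) : Qa), map_ratCast, Rat.smul_def]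
      rw [h3]
      exact Submodule.smul_mem _ _ (Submodule.subset_span ⟨i, rfl⟩)
    · rintro _ ⟨i, rfl⟩
      exact (b i).2
  rw [h1]
  refine ⟨FiniteDimensional.span_of_finite Qa (Set.finite_range _), ?_⟩
  refine (finrank_range_le_card _).trans ?_
  rw [Fintype.card_fin]

/-- **No new numbers among the values at one-dimensional periods.** -/
theorem per_main (n D D' q r : ℕ) (hD : 2 ≤ D) (hDD : D' ≤ D) (ξ : Fin q → ℂ) (z : Fin r → ℂ) :
    ∃ 𝒬 𝒰 : Submodule Qa ℂ, (1 : ℂ) ∈ 𝒬 ∧ (∀ i, ξ i ∈ periods1 → ξ i ∈ 𝒬) ∧ 𝒬 ⊔ 𝒰 = periods1 ∧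
      Module.Finite Qa 𝒰 ∧
      finrank Qa 𝒰 ≤ (r * (D' + q).choose q + (D + q).choose q) * (D + n).choose n - 2 * n ∧
      ∀ y : Fin n → ℂ, (∀ i, y i ∈ 𝒬) → ∀ (j : Fin r) (A B : MvPolynomial (Fin q ⊕ Fin n) Qa),
        A.totalDegree ≤ D → B.totalDegree ≤ D' → aeval (Sum.elim ξ y) B ≠ 0 →
        z j * aeval (Sum.elim ξ y) B = aeval (Sum.elim ξ y) A →
        ∃ g : Fin n → MvPolynomial (Fin q) Qa, (∀ i, (g i).totalDegree ≤ 1) ∧
          aeval ξ (bind₁ (Sum.elim X g) B) ≠ 0 ∧
          z j * aeval ξ (bind₁ (Sum.elim X g) B) = aeval ξ (bind₁ (Sum.elim X g) A) := by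
  classical
  have := Pool.Agent.Y787.uncountable_complex
  have hinf : Infinite Qa := CharZero.infinite _
  have hWf : Module.Finite Qa (quoW (k := Qa) ξ z D D') := quoW_finite ξ z D D'
  obtain ⟨Λ, U, -, hΛU, hUf, hUr, hno⟩ := Pool.Agent.Helper71.FC.exists_noRel
      Pool.Agent.Y787.hypC_complex.hyp
      Pool.Agent.Y787.hypC_complex.one Lg
      (fun x hx => Pool.Agent.H301R2.SSE.Lt_log
        ((Pool.Agent.Helper71.MLog.mem_span_logs x).1 hx)) (by
        intro r w hw hli
        exact Pool.Agent.Y787.li_consC w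
          (fun j => (Pool.Agent.Helper71.MLog.mem_span_logs (w j)).1 (hw j)) hli)
      Pool.Agent.Helper71.MLog.countable_logs n D hD (quoW (k := Qa) ξ z D D') ⊥ bot_le inferInstance
      (Pool.Agent.Helper71.FC.noRel_bot n D _)
  obtain ⟨hUf', hUr'⟩ := span_rat (U := U)
  have hone : (1 : ℂ) ∈ periods1 := by
    apply Submodule.subset_span
    refine ⟨1, 1, Set.Ioo 0 1, one_ne_zero,
      Pool.Agent.HP778.KZ.semiAlg_Ioo isAlgebraic_zero isAlgebraic_one, ?_, ?_⟩
    · simp only [map_one, div_one]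
      exact (continuous_const.integrableOn_Icc (a := (0:ℝ)) (b := 1)).mono_set Set.Ioo_subset_Icc_self
    · simp
  have hle : periods1 ≤ Submodule.span Qa (insert 1 (Λ : Set ℂ)) ⊔ Submodule.span Qa (U : Set ℂ) := by
    refine periods1_le.trans (Submodule.span_le.2 ?_)
    rintro x (hx | hx)
    · rw [hx]
      exact Submodule.mem_sup_left (Submodule.subset_span (Or.inl rfl))
    · have h1 : x ∈ Λ ⊔ U := by
        rw [hΛU]
        exact Submodule.subset_span hx
      obtain ⟨a, ha, b, hb, rfl⟩ := Submodule.mem_sup.1 h1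
      exact Submodule.add_mem_sup (Submodule.subset_span (Or.inr ha)) (Submodule.subset_span hb)
  obtain ⟨𝒰, h1, h2, h3, h4⟩ := codim_inf hle
  refine ⟨(Submodule.span Qa (insert 1 (Λ : Set ℂ)) ⊓ periods1) ⊔
    (Submodule.span Qa (Set.range ξ) ⊓ periods1), 𝒰,
    Submodule.mem_sup_left ⟨Submodule.subset_span (Or.inl rfl), hone⟩, fun i hi =>
    Submodule.mem_sup_right ⟨Submodule.subset_span ⟨i, rfl⟩, hi⟩, ?_, h3, ?_, ?_⟩
  · refine le_antisymm (sup_le (sup_le inf_le_right inf_le_right) h1) ?_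
    conv_lhs => rw [← h2]
    exact sup_le_sup_right le_sup_left _
  · exact h4.trans (hUr'.trans (hUr.trans (Nat.sub_le_sub_right (Nat.mul_le_mul_right _
      (finrank_quoW ξ z D D')) _)))
  · intro y hy j A B hA hB hB0 h
    choose y₀ hy₀ w hw hyw using fun i => Submodule.mem_sup.1 (hy i)
    refine no_new (k := Qa) (z := z) (y₀ := y₀) hDD (fun i => ?_) ?_ j A B hA hB hB0 h
    · rw [← hyw i, add_sub_cancel_left]
      exact Submodule.span_mono (Set.subset_insert _ _) (hw i).1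
    · intro m hm u hu hli P hP hPD hPu
      refine hno m hm u (fun j => ?_) hli P hP hPD hPu
      obtain ⟨i, hi⟩ := hu j
      rw [hi]
      exact (hy₀ i).1

end Pool.Agent.Helper71.TF
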