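import Mathlib
import Pool.Agent.Helper71.ET.Lift
import Pool.Agent.Helper71.TF.Per

/-!
# Decompositions of spaces of linear forms in logarithms
-/

set_option autoImplicit false

namespace Pool.Agent.Helper71.TF

open Finset Module MvPolynomial
open Pool.Agent.HP778.KZ (periods1 periods1_le)
open Pool.Agent.H301R2.SSE (QB mem_QB Lt Lt_mul Lt_one Lt_log)
open Pool.Agent.Helper71.ET
open Pool.Agent.H297R2 (Ex card_Ex)

theorem many_li {F E : Type} [Field F] [AddCommGroup E] [Module F E] (h : ¬ Module.Finite F E)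
    (R : ℕ) : ∃ u : Fin R → E, LinearIndependent F u := by
  let b := Module.Basis.ofVectorSpace F E
  have hinf : Infinite (Module.Basis.ofVectorSpaceIndex F E) := by
    by_contra hcon
    have hfin : Finite (Module.Basis.ofVectorSpaceIndex F E) := not_infinite_iff_finite.1 hcon
    exact h (Module.Finite.of_basis b)
  exact ⟨fun i => b (Infinite.natEmbedding _ i), b.linearIndependent.comp _
    ((Infinite.natEmbedding _).injective.comp Fin.val_injective)⟩

theorem span_countable {k E : Type} [Field k] [Countable k] [AddCommGroup E] [Module k E]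
    {s : Set E} (hs : s.Countable) : (Submodule.span k s : Set E).Countable := by
  classical
  have := hs.to_subtype
  have h1 : Submodule.span k s =
      LinearMap.range (Finsupp.linearCombination k (Subtype.val : s → E)) := by
    rw [Finsupp.range_linearCombination, Subtype.range_coe]
  rw [h1, LinearMap.coe_range]
  exact Set.countable_range _

theorem countable_Lt : (Lt : Set ℂ).Countable := by
  have hc : Countable Qa := by
    have h := Algebraic.countable ℚ ℂ
    exact (h.mono fun x hx => mem_algebraicClosure_iff.1 hx).to_subtype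
  refine span_countable (Set.Countable.union (Set.countable_singleton _) ?_)
  exact Pool.Agent.Helper71.MLog.countable_logs.mono Submodule.subset_span

/-- generic elements of an infinite dimensional space of linear forms -/
theorem gen1 {D : ℕ} (hD : 2 ≤ D) {E : Submodule Qa ℂ} (hE : E ≤ Lt) (hinf : ¬ Module.Finite Qa E)
    {p : ℕ} (θ : Fin p → ℂ) (m : ℕ) : ∃ z : Fin m → ℂ, (∀ l, z l ∈ E) ∧ OTR Qa D θ z := by
  classical
  have := Pool.Agent.Y787.uncountable_complex
  have hWf : Module.Finite Qa (monW (k := Qa) θ D) := monW_finite θ D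
  obtain ⟨Λ, U, -, hΛU, hUf, -, hno⟩ := Pool.Agent.Helper71.FC.exists_noRel
      Pool.Agent.Y787.hypC_complex.hyp
      Pool.Agent.Y787.hypC_complex.one Lg
      (fun x hx => Pool.Agent.H301R2.SSE.Lt_log
        ((Pool.Agent.Helper71.MLog.mem_span_logs x).1 hx)) (by
        intro r w hw hli
        exact Pool.Agent.Y787.li_consC w
          (fun j => (Pool.Agent.Helper71.MLog.mem_span_logs (w j)).1 (hw j)) hli)
      Pool.Agent.Helper71.MLog.countable_logs m D hD (monW (k := Qa) θ D) ⊥ bot_le inferInstance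
      (Pool.Agent.Helper71.FC.noRel_bot m D _)
  obtain ⟨hUf', -⟩ := span_rat (U := U)
  have hle : E ≤ Submodule.span Qa (insert 1 (Λ : Set ℂ)) ⊔ Submodule.span Qa (U : Set ℂ) := by
    refine hE.trans (Submodule.span_le.2 ?_)
    rintro x (hx | hx)
    · rw [hx]
      exact Submodule.mem_sup_left (Submodule.subset_span (Or.inl rfl))
    · have h1 : x ∈ Λ ⊔ U := by
        rw [hΛU]
        exact Submodule.subset_span hx
      obtain ⟨a, ha, b, hb, rfl⟩ := Submodule.mem_sup.1 h1
      exact Submodule.add_mem_sup (Submodule.subset_span (Or.inr ha)) (Submodule.subset_span hb)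
  obtain ⟨𝒰, -, h2, h3, -⟩ := codim_inf hle
  set A : Submodule Qa ℂ := Submodule.span Qa (insert 1 (Λ : Set ℂ)) ⊓ E with hA
  have hAinf : ¬ Module.Finite Qa A := by
    intro hfin
    apply hinf
    have : Module.Finite Qa (A ⊔ 𝒰 : Submodule Qa ℂ) := inferInstance
    rwa [h2] at this
  obtain ⟨y, hy⟩ := many_li hAinf (m + 1)
  have hy' : LinearIndependent Qa (fun i => (y i : ℂ)) :=
    hy.map' A.subtype (Submodule.ker_subtype A)
  obtain ⟨m', hm', u, a, B, hu, huy, hrep⟩ := exists_li (k := Qa) (fun i => (y i : ℂ))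
  have hmm : m ≤ m' := by
    have h4 : Submodule.span Qa (Set.range fun i => (y i : ℂ)) ≤
        Submodule.span Qa (Set.range (Fin.cons 1 u : Fin (m' + 1) → ℂ)) := by
      refine Submodule.span_le.2 ?_
      rintro _ ⟨i, rfl⟩
      simp only
      rw [hrep i]
      refine Submodule.add_mem _ ?_ (Submodule.sum_mem _ fun j _ => ?_)
      · have h5 : algebraMap Qa ℂ (a i) = a i • (1 : ℂ) := by rw [Algebra.smul_def, mul_one]
        rw [h5]
        exact Submodule.smul_mem _ _ (Submodule.subset_span ⟨0, by simp⟩)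
      · rw [← Algebra.smul_def]
        exact Submodule.smul_mem _ _ (Submodule.subset_span ⟨j.succ, by simp⟩)
    have hfs : Module.Finite Qa (Submodule.span Qa (Set.range (Fin.cons 1 u : Fin (m' + 1) → ℂ))) :=
      FiniteDimensional.span_of_finite Qa (Set.finite_range _)
    have h5 := Submodule.finrank_mono (s := Submodule.span Qa (Set.range fun i => (y i : ℂ)))
      (t := Submodule.span Qa (Set.range (Fin.cons 1 u : Fin (m' + 1) → ℂ))) h4
    rw [finrank_span_eq_card hy', finrank_span_eq_card hu, Fintype.card_fin, Fintype.card_fin] at h5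
    omega
  refine ⟨fun l => u (Fin.castLE hmm l), fun l => ?_, ?_⟩
  · obtain ⟨i, hi⟩ := huy (Fin.castLE hmm l)
    simp only [hi]
    exact (y i).2.2
  · refine otr_of fun P hP hPD hPx => ?_
    refine hno m le_rfl _ (fun l => ?_) ?_ P hP hPD hPx
    · obtain ⟨i, hi⟩ := huy (Fin.castLE hmm l)
      simp only [hi]
      exact (y i).2.1
    · have h6 := hu.comp (Fin.castLE (by omega : m + 1 ≤ m' + 1)) (Fin.castLE_injective _)
      convert h6 using 1
      funext l
      refine Fin.cases ?_ (fun l => ?_) l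
      · simp
      · simp only [Fin.cons_succ, Function.comp_apply]
        have h7 : Fin.castLE (by omega : m + 1 ≤ m' + 1) l.succ = (Fin.castLE hmm l).succ := by
          ext
          simp
        rw [h7, Fin.cons_succ]

/-- generic pairs -/
theorem gen2 {D : ℕ} (hD : 2 ≤ D) {S : Submodule Qa ℂ} (hS : S ≤ Lt) (E₁ E₂ : Submodule Qa S)
    (h₁ : ¬ Module.Finite Qa E₁) (h₂ : ¬ Module.Finite Qa E₂) :
    Gen Qa D (fun (_ : Unit) (x : E₁) => ((x : S) : ℂ)) (fun (_ : Unit) (x : E₂) => ((x : S) : ℂ)) := by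
  classical
  have hinf : Infinite Qa := CharZero.infinite _
  have hfin : ∀ E : Submodule Qa S, ¬ Module.Finite Qa E →
      ¬ Module.Finite Qa (E.map S.subtype) := by
    intro E hE hcon
    exact hE (Module.Finite.equiv
      (Submodule.equivMapOfInjective S.subtype S.injective_subtype E).symm)
  have hle : ∀ E : Submodule Qa S, E.map S.subtype ≤ Lt := by
    rintro E _ ⟨x, -, rfl⟩
    exact hS x.2
  intro p θ m
  obtain ⟨z₁, hz₁, ho₁⟩ := gen1 hD (hle E₁) (hfin E₁ h₁) θ m
  set e : Fin p ⊕ Fin m ≃ Fin (p + m) := finSumFinEquiv with he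
  obtain ⟨z₂, hz₂, ho₂⟩ := gen1 hD (hle E₂) (hfin E₂ h₂) (Sum.elim θ z₁ ∘ e.symm) m
  have ho₃ : OTR Qa D (Sum.elim θ z₁) z₂ := ho₂.reparam e
  have ho := ho₁.extend ho₃ (fun p => Aff.mem (Sum.elim θ z₁) (Sum.inl p))
    (fun s => Aff.mem (Sum.elim θ z₁) (Sum.inr s))
  choose x₁ hx₁ hxz₁ using hz₁
  choose x₂ hx₂ hxz₂ using hz₂
  refine ⟨fun l => ⟨x₁ l, hx₁ l⟩, fun l => ⟨x₂ l, hx₂ l⟩, ?_⟩
  have h4 := ho.comp (f := (Sum.map Prod.snd Prod.snd : (Unit × Fin m) ⊕ (Unit × Fin m) → _)) (by
      rintro (⟨_, a⟩ | ⟨_, a⟩) (⟨_, b⟩ | ⟨_, b⟩) h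
      · simpa using h
      · simp at h
      · simp at h
      · simpa using h)
  convert h4 using 1
  funext q
  rcases q with ⟨_, l⟩ | ⟨_, l⟩
  · simp only [co, Sum.elim_inl, Function.comp_apply, Sum.map_inl]
    exact hxz₁ l
  · simp only [co, Sum.elim_inr, Function.comp_apply, Sum.map_inr]
    exact hxz₂ l

/-- **Decompositions of spaces of linear forms.** -/
theorem dec_forms {S : Submodule Qa ℂ} (hS : S ≤ Lt) (hc : (S : Set ℂ).Countable)
    (hinf : ¬ Module.Finite Qa S) {P : Type} [Fintype P] (θ : P → ℂ) {V : Submodule Qa ℂ}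
    (hVS : V ≤ S) (hV : V ≤ Aff Qa θ) {D : ℕ} (hD : 2 ≤ D) (m : ℕ) :
    ∃ T : Fin (m + 1) → Submodule Qa ℂ, V ⊔ ⨆ i, T i = S ∧
      (∀ v ∈ V, ∀ t : Fin (m + 1) → ℂ, (∀ i, t i ∈ T i) → v + ∑ i, t i = 0 → v = 0 ∧ t = 0) ∧
      (∀ i, ¬ Module.Finite Qa (T i)) ∧
      ∀ (j : Fin (m + 1)) (r : ℕ) (y : Fin r → ℂ), (∀ s, y s ∈ ⨆ i : {i // i ≠ j}, T i) →
        LinearIndependent Qa y → OTR Qa D θ y := by
  classical
  have hinfQ : Infinite Qa := CharZero.infinite _
  have hcS : Countable S := hc.to_subtype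
  have hAf : Module.Finite Qa (Aff Qa θ) :=
    FiniteDimensional.span_of_finite Qa ((Set.finite_range θ).insert 1)
  have hVf : Module.Finite Qa V := Submodule.finiteDimensional_of_le hV
  have hQ : QL (Aff Qa θ) (fun _ : Unit => RingHom.id Qa) (fun (_ : Unit) (x : S) => (x : ℂ)) := by
    refine ⟨fun i x y => ?_, fun i a x => ?_⟩
    · rw [Submodule.coe_add, sub_self]
      exact Submodule.zero_mem _
    · rw [Submodule.coe_smul, Algebra.smul_def, RingHom.id_apply, sub_self]
      exact Submodule.zero_mem _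
  have hVinf : ¬ Module.Finite Qa (S ⧸ V.comap S.subtype) := by
    intro hfin
    apply hinf
    have h1 : Module.Finite Qa (V.comap S.subtype) :=
      Module.Finite.equiv (Submodule.comapSubtypeEquivOfLe hVS).symm
    exact Module.Finite.of_submodule_quotient (V.comap S.subtype)
  obtain ⟨P₁, P₂, hd, -, hfree⟩ := exists_dec (κ := Qa) (C := ℂ) (D := D) (by omega) (θ := θ) hQ hQ
    (V₁ := V.comap S.subtype) (V₂ := V.comap S.subtype) (fun _ v hv => hV hv) (fun _ v hv => hV hv)
    (gen2 hD hS) hVinf hVinf m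
  have hmapV : (V.comap S.subtype).map S.subtype = V := by
    rw [Submodule.map_comap_eq, Submodule.range_subtype]
    exact inf_eq_right.2 hVS
  refine ⟨fun i => (P₁ i).map S.subtype, ?_, ?_, ?_, ?_⟩
  · rw [← Submodule.map_iSup]
    conv_lhs => rw [← hmapV]
    rw [← Submodule.map_sup, hd.top, Submodule.map_top, Submodule.range_subtype]
  · intro v hv t ht h0
    choose x hx hxt using ht
    have hsum : (⟨v, hVS hv⟩ : S) + ∑ i, x i = 0 := by
      apply Subtype.ext
      rw [Submodule.coe_add, Submodule.coe_sum]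
      have : ∀ i, ((x i : S) : ℂ) = t i := hxt
      simp only [this]
      exact h0
    have h2 : (⟨v, hVS hv⟩ : S) = 0 := by
      have h3 : (⟨v, hVS hv⟩ : S) ∈ ⨆ i, P₁ i := by
        rw [eq_neg_of_add_eq_zero_left hsum]
        exact Submodule.neg_mem _ (Submodule.sum_mem _ fun i _ => le_iSup P₁ i (hx i))
      exact (Submodule.disjoint_def.1 hd.disj) _ hv h3
    have h3 : ∑ i, x i = 0 := by rwa [h2, zero_add] at hsum
    have h4 := (iSupIndep_iff_finsetSum_eq_zero_imp_eq_zero P₁).1 hd.indep Finset.univ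
      x (fun i _ => hx i) h3
    refine ⟨congrArg Subtype.val h2, funext fun i => ?_⟩
    rw [← hxt i, h4 i (Finset.mem_univ i)]
    rfl
  · intro i hcon
    exact hd.inf i (Module.Finite.equiv
      (Submodule.equivMapOfInjective S.subtype S.injective_subtype (P₁ i)).symm)
  · intro j r y hy hli
    rw [← Submodule.map_iSup] at hy
    choose x hx hxy using hy
    have hxli : LinearIndependent Qa x := by
      refine LinearIndependent.of_comp S.subtype ?_
      convert hli using 1
      funext s
      exact hxy s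
    have h4 := hfree j r x 0 Fin.elim0 (fun s => Submodule.mem_sup_right (hx s))
      (fun s => s.elim0) (by
        intro c hc
        have h8 : (⨆ i : {i // i ≠ j}, P₁ i) ≤ ⨆ i, P₁ i :=
          iSup_le fun i => le_iSup P₁ (i : Fin (m + 1))
        have h5 : ∑ s, c s • x s ∈ ⨆ i, P₁ i := Submodule.sum_mem _ fun s _ =>
          Submodule.smul_mem _ _ (h8 (hx s))
        have h6 := (Submodule.disjoint_def.1 hd.disj) _ hc h5
        funext s
        exact (Fintype.linearIndependent_iff.1 hxli) c h6 s) (fun c _ => Subsingleton.elim _ _)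
    have h5 := h4.comp (f := fun s : Fin r => (Sum.inl ((), s) : (Unit × Fin r) ⊕ (Unit × Fin 0)))
      (fun a b h => by simpa using h)
    convert h5 using 1
    funext s
    exact (hxy s).symm

section no

variable {k E : Type} [Field k] [Field E] [Algebra k E]

/-- relations whose coefficients are combinations of monomials in the parameters -/
theorem otr_no [Infinite E] {P ι : Type} [Fintype ι] {θ : P → E} {d D m : ℕ}
    (M : ι → MvPolynomial P k) (hM : ∀ i, (M i).totalDegree ≤ d) {u : Fin m → E}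
    (h : OTR k (d + D) θ u) (R : MvPolynomial (Fin m) E)
    (hR : ∀ s, R.coeff s ∈ Submodule.span k (Set.range fun i => aeval θ (M i)))
    (hRD : R.totalDegree ≤ D) (h0 : eval u R = 0) : R = 0 := by
  classical
  choose c hc using fun s => (Submodule.mem_span_range_iff_exists_fun k).1 (hR s)
  set Q : MvPolynomial (P ⊕ Fin m) k := ∑ s ∈ R.support, (∑ i, MvPolynomial.C (c s i) *
    rename Sum.inl (M i)) * rename Sum.inr (monomial s 1) with hQ
  have hQD : Q.totalDegree ≤ d + D := by
    refine totalDegree_finsetSum_le fun s hs => ?_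
    refine (totalDegree_mul _ _).trans (Nat.add_le_add ?_ ?_)
    · refine totalDegree_finsetSum_le fun i _ => ?_
      refine (totalDegree_mul _ _).trans ?_
      rw [totalDegree_C, zero_add]
      exact (totalDegree_rename_le _ _).trans (hM i)
    · refine (totalDegree_rename_le _ _).trans ((totalDegree_monomial_le _ _).trans ?_)
      refine le_trans ?_ hRD
      exact le_totalDegree hs
  have hev : ∀ y : Fin m → E, aeval (Sum.elim θ y) Q = eval y R := by
    intro y
    rw [hQ, map_sum]
    conv_rhs => rw [R.as_sum, map_sum]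
    refine Finset.sum_congr rfl fun s _ => ?_
    rw [map_mul, map_sum, eval_monomial, aeval_rename]
    have h1 : Sum.elim θ y ∘ Sum.inr = y := rfl
    rw [h1, aeval_monomial, map_one, one_mul, ← hc s]
    congr 1
    refine Finset.sum_congr rfl fun i _ => ?_
    rw [map_mul, aeval_C, aeval_rename, Algebra.smul_def]
    rfl
  have h1 := h Q hQD (by rw [hev, h0])
  refine MvPolynomial.funext fun y => ?_
  rw [map_zero, ← hev]
  exact h1 y

end no

/-- **No new numbers among the values at one-dimensional periods, in any number of variables.** -/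
theorem per_dec (m D q r : ℕ) (hD : 1 ≤ D) (ξ : Fin q → ℂ) (z : Fin r → ℂ) :
    ∃ T : Fin (m + 1) → Submodule Qa ℂ, (Submodule.span Qa (insert 1 (Set.range ξ)) ⊓ periods1) ⊔
        ⨆ i, T i = periods1 ∧
      (∀ v ∈ Submodule.span Qa (insert 1 (Set.range ξ)) ⊓ periods1, ∀ t : Fin (m + 1) → ℂ,
        (∀ i, t i ∈ T i) → v + ∑ i, t i = 0 → v = 0 ∧ t = 0) ∧
      (∀ i, ¬ Module.Finite Qa (T i)) ∧
      ∀ (j : Fin (m + 1)) (n : ℕ) (y : Fin n → ℂ),
        (∀ i, y i ∈ (Submodule.span Qa (insert 1 (Set.range ξ)) ⊓ periods1) ⊔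
          ⨆ i : {i // i ≠ j}, T i) →
        ∀ (l : Fin r) (A B : MvPolynomial (Fin q ⊕ Fin n) Qa),
        A.totalDegree ≤ D → B.totalDegree ≤ D → aeval (Sum.elim ξ y) B ≠ 0 →
        z l * aeval (Sum.elim ξ y) B = aeval (Sum.elim ξ y) A →
        ∃ g : Fin n → MvPolynomial (Fin q) Qa, (∀ i, (g i).totalDegree ≤ 1) ∧
          aeval ξ (bind₁ (Sum.elim X g) B) ≠ 0 ∧
          z l * aeval ξ (bind₁ (Sum.elim X g) B) = aeval ξ (bind₁ (Sum.elim X g) A) := by
  classical
  have hinfQ : Infinite Qa := CharZero.infinite _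
  set V : Submodule Qa ℂ := Submodule.span Qa (insert 1 (Set.range ξ)) ⊓ periods1 with hVdef
  have hVA : V ≤ Aff Qa (Sum.elim ξ z) := by
    refine inf_le_left.trans (Submodule.span_le.2 ?_)
    rintro _ (rfl | ⟨i, rfl⟩)
    · exact Aff.one _
    · exact Aff.mem (Sum.elim ξ z) (Sum.inl i)
  obtain ⟨T, h1, h2, h3, h4⟩ := dec_forms periods1_le (countable_Lt.mono periods1_le)
    Pool.Agent.HP778.KZ.periods1_infinite (Sum.elim ξ z)
    (V := V) inf_le_right hVA (D := (D + 1) + D) (by omega) m
  refine ⟨T, h1, h2, h3, ?_⟩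
  intro j n y hy l A B hA hB hB0 h
  choose v hv y₀ hy₀ hvy using fun i => Submodule.mem_sup.1 (hy i)
  refine no_new (k := Qa) (z := z) (y₀ := y₀) le_rfl (fun i => ?_) ?_ l A B hA hB hB0 h
  · rw [← hvy i, add_sub_cancel_right]
    exact (hv i).1
  · intro m' hm' u hu hli P hP hPD hPu
    have hu' : LinearIndependent Qa u := by
      have h5 := hli.comp Fin.succ (Fin.succ_injective _)
      have h6 : (Fin.cons 1 u : Fin (m' + 1) → ℂ) ∘ Fin.succ = u := by
        funext s
        simp
      rw [h6] at h5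
      exact h5
    have ho := h4 j m' u (fun s => by
      obtain ⟨i, hi⟩ := hu s
      rw [hi]
      exact hy₀ i) hu'
    let M : (Fin r × Ex (Fin q) D) ⊕ Ex (Fin q) D → MvPolynomial (Fin q ⊕ Fin r) Qa := Sum.elim
      (fun p => X (Sum.inr p.1) * ∏ i, X (Sum.inl i) ^ (p.2 : Fin q →₀ ℕ) i)
      (fun e => ∏ i, X (Sum.inl i) ^ (e : Fin q →₀ ℕ) i)
    have hprod : ∀ e : Ex (Fin q) D, (∏ i, (X (Sum.inl i) : MvPolynomial (Fin q ⊕ Fin r) Qa) ^
        (e : Fin q →₀ ℕ) i).totalDegree ≤ D := by
      intro e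
      refine (totalDegree_finsetProd _ _).trans ?_
      refine le_trans (Finset.sum_le_sum fun i _ => (totalDegree_pow _ _)) ?_
      simp only [totalDegree_X, mul_one]
      have := e.2
      rw [← Finsupp.degree_eq_sum]
      exact this
    refine otr_no (θ := Sum.elim ξ z) (d := D + 1) (D := D) M ?_ ho P ?_ hPD hPu
    · rintro (p | e)
      · refine (totalDegree_mul _ _).trans ?_
        rw [totalDegree_X, add_comm]
        exact Nat.add_le_add_right (hprod p.2) 1
      · exact (hprod e).trans (Nat.le_succ D)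
    · intro s
      have h5 : (Set.range fun i => aeval (Sum.elim ξ z) (M i)) = Set.range (Sum.elim
          (fun p : Fin r × Ex (Fin q) D => z p.1 * ∏ i, ξ i ^ (p.2 : Fin q →₀ ℕ) i)
          (fun e : Ex (Fin q) D => ∏ i, ξ i ^ (e : Fin q →₀ ℕ) i)) := by
        congr 1
        funext i
        rcases i with p | e
        · simp only [M, Sum.elim_inl, map_mul, aeval_X, Sum.elim_inr, map_prod, map_pow]
        · simp only [M, Sum.elim_inr, aeval_X, Sum.elim_inl, map_prod, map_pow]
      rw [h5]
      exact hP s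

end Pool.Agent.Helper71.TF
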