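import Mathlib
import Pool.Agent.Helper71.ET.Fin
import Pool.Agent.Helper71.TF.Dec

/-!
# Decompositions of the rational space of the logarithms, with arbitrary coefficients
-/

set_option autoImplicit false

namespace Pool.Agent.Helper71.TF

open Finset Module MvPolynomial
open Pool.Agent.Helper71.ET

/-- generic elements of an infinite dimensional rational space of logarithms -/
theorem genQ1 {D : ℕ} (hD : 2 ≤ D) {E : Submodule ℚ ℂ} (hE : E ≤ Lg) (hinf : ¬ Module.Finite ℚ E)
    {p : ℕ} (θ : Fin p → ℂ) (m : ℕ) : ∃ z : Fin m → ℂ, (∀ l, z l ∈ E) ∧ OTR Qa D θ z := by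
  classical
  have := Pool.Agent.Y787.uncountable_complex
  have hWf : Module.Finite Qa (monW (k := Qa) θ D) := monW_finite θ D
  obtain ⟨Λ, U, -, hΛU, hUf, -, hno⟩ := Pool.Agent.Helper71.FC.exists_noRel
      Pool.Agent.Y787.hypC_complex.hyp
      Pool.Agent.Y787.hypC_complex.one Lg
      (fun x hx => Pool.Agent.H301R2.SSE.Lt_log
        ((Pool.Agent.Helper71.MLog.mem_span_logs x).1 hx)) (by
        intro r w hw hli
        exact Pool.Agent.Y787.li_consC w
          (fun j => (Pool.Agent.Helper71.MLog.mem_span_logs (w j)).1 (hw j)) hli)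
      Pool.Agent.Helper71.MLog.countable_logs m D hD (monW (k := Qa) θ D) ⊥ bot_le inferInstance
      (Pool.Agent.Helper71.FC.noRel_bot m D _)
  have hle : E ≤ Λ ⊔ U := by rw [hΛU]; exact hE
  obtain ⟨𝒰, -, h2, h3, -⟩ := codim_inf hle
  have hAinf : ¬ Module.Finite ℚ (Λ ⊓ E : Submodule ℚ ℂ) := by
    intro hfin
    apply hinf
    have h4 : Module.Finite ℚ ((Λ ⊓ E) ⊔ 𝒰 : Submodule ℚ ℂ) := inferInstance
    rwa [h2] at h4
  obtain ⟨y, hy⟩ := many_li hAinf m
  have hy' : LinearIndependent ℚ (fun i => (y i : ℂ)) :=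
    hy.map' (Λ ⊓ E).subtype (Submodule.ker_subtype _)
  refine ⟨fun i => (y i : ℂ), fun i => (y i).2.2, otr_of fun P hP hPD hPx => ?_⟩
  exact hno m le_rfl _ (fun i => Submodule.subset_span (Or.inr (y i).2.1))
    (Pool.Agent.Y787.li_consC _
      (fun j => (Pool.Agent.Helper71.MLog.mem_span_logs _).1 (hE (y j).2.2)) hy') P hP hPD hPx

/-- generic pairs -/
theorem genQ2 {D : ℕ} (hD : 2 ≤ D) (E₁ E₂ : Submodule ℚ Lg)
    (h₁ : ¬ Module.Finite ℚ E₁) (h₂ : ¬ Module.Finite ℚ E₂) :
    Gen Qa D (fun (_ : Unit) (x : E₁) => ((x : Lg) : ℂ))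
      (fun (_ : Unit) (x : E₂) => ((x : Lg) : ℂ)) := by
  classical
  have hinf : Infinite Qa := CharZero.infinite _
  have hfin : ∀ E : Submodule ℚ Lg, ¬ Module.Finite ℚ E →
      ¬ Module.Finite ℚ (E.map Lg.subtype) := by
    intro E hE hcon
    exact hE (Module.Finite.equiv
      (Submodule.equivMapOfInjective Lg.subtype Lg.injective_subtype E).symm)
  have hle : ∀ E : Submodule ℚ Lg, E.map Lg.subtype ≤ Lg := by
    rintro E _ ⟨x, -, rfl⟩
    exact x.2
  intro p θ m
  obtain ⟨z₁, hz₁, ho₁⟩ := genQ1 hD (hle E₁) (hfin E₁ h₁) θ m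
  set e : Fin p ⊕ Fin m ≃ Fin (p + m) := finSumFinEquiv with he
  obtain ⟨z₂, hz₂, ho₂⟩ := genQ1 hD (hle E₂) (hfin E₂ h₂) (Sum.elim θ z₁ ∘ e.symm) m
  have ho₃ : OTR Qa D (Sum.elim θ z₁) z₂ := ho₂.reparam e
  have ho := ho₁.extend ho₃ (fun p => Aff.mem (Sum.elim θ z₁) (Sum.inl p))
    (fun s => Aff.mem (Sum.elim θ z₁) (Sum.inr s))
  choose x₁ hx₁ hxz₁ using hz₁
  choose x₂ hx₂ hxz₂ using hz₂
  refine ⟨fun l => ⟨x₁ l, hx₁ l⟩, fun l => ⟨x₂ l, hx₂ l⟩, ?_⟩
  have h4 := ho.comp (f := (Sum.map Prod.snd Prod.snd : (Unit × Fin m) ⊕ (Unit × Fin m) → _)) (by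
      rintro (⟨_, a⟩ | ⟨_, a⟩) (⟨_, b⟩ | ⟨_, b⟩) h
      · simpa using h
      · simp at h
      · simp at h
      · simpa using h)
  convert h4 using 1
  funext q
  rcases q with ⟨_, l⟩ | ⟨_, l⟩
  · simp only [co, Sum.elim_inl, Function.comp_apply, Sum.map_inl]
    exact hxz₁ l
  · simp only [co, Sum.elim_inr, Function.comp_apply, Sum.map_inr]
    exact hxz₂ l

/-- **The decomposition.** -/
theorem decQ {P : Type} [Fintype P] (θ : P → ℂ) {V : Submodule ℚ ℂ} (hVL : V ≤ Lg)
    (hVf : Module.Finite ℚ V) (hV : ∀ v ∈ V, v ∈ Aff Qa θ) {D : ℕ} (hD : 2 ≤ D) (m : ℕ) :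
    ∃ T : Fin (m + 1) → Submodule ℚ ℂ, V ⊔ ⨆ i, T i = Lg ∧
      (∀ v ∈ V, ∀ t : Fin (m + 1) → ℂ, (∀ i, t i ∈ T i) → v + ∑ i, t i = 0 → v = 0 ∧ t = 0) ∧
      (∀ i, ¬ Module.Finite ℚ (T i)) ∧
      ∀ (j : Fin (m + 1)) (r : ℕ) (y : Fin r → ℂ), (∀ s, y s ∈ ⨆ i : {i // i ≠ j}, T i) →
        LinearIndependent ℚ y → OTR Qa D θ y := by
  classical
  have hinfQ : Infinite Qa := CharZero.infinite _
  have hcS : Countable Lg := Pool.Agent.Helper71.MLog.countable_logs.to_subtype
  have hinf : ¬ Module.Finite ℚ Lg := Pool.Agent.Helper71.MLog.not_finite_logs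
  have hQ : QL (Aff Qa θ) (fun _ : Unit => algebraMap ℚ Qa) (fun (_ : Unit) (x : Lg) => (x : ℂ)) := by
    refine ⟨fun i x y => ?_, fun i a x => ?_⟩
    · rw [Submodule.coe_add, sub_self]
      exact Submodule.zero_mem _
    · rw [Submodule.coe_smul, Algebra.smul_def, IsScalarTower.algebraMap_apply ℚ Qa ℂ, sub_self]
      exact Submodule.zero_mem _
  have hVinf : ¬ Module.Finite ℚ (Lg ⧸ V.comap Lg.subtype) := by
    intro hfin
    apply hinf
    have h1 : Module.Finite ℚ (V.comap Lg.subtype) :=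
      Module.Finite.equiv (Submodule.comapSubtypeEquivOfLe hVL).symm
    exact Module.Finite.of_submodule_quotient (V.comap Lg.subtype)
  obtain ⟨P₁, P₂, hd, -, hfree⟩ := exists_dec (κ := Qa) (C := ℂ) (D := D) (by omega) (θ := θ) hQ hQ
    (V₁ := V.comap Lg.subtype) (V₂ := V.comap Lg.subtype) (fun _ v hv => hV _ hv)
    (fun _ v hv => hV _ hv) (genQ2 hD) hVinf hVinf m
  have hmapV : (V.comap Lg.subtype).map Lg.subtype = V := by
    rw [Submodule.map_comap_eq, Submodule.range_subtype]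
    exact inf_eq_right.2 hVL
  refine ⟨fun i => (P₁ i).map Lg.subtype, ?_, ?_, ?_, ?_⟩
  · rw [← Submodule.map_iSup]
    conv_lhs => rw [← hmapV]
    rw [← Submodule.map_sup, hd.top, Submodule.map_top, Submodule.range_subtype]
  · intro v hv t ht h0
    choose x hx hxt using ht
    have hsum : (⟨v, hVL hv⟩ : Lg) + ∑ i, x i = 0 := by
      apply Subtype.ext
      rw [Submodule.coe_add, Submodule.coe_sum]
      have : ∀ i, ((x i : Lg) : ℂ) = t i := hxt
      simp only [this]
      exact h0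
    have h2 : (⟨v, hVL hv⟩ : Lg) = 0 := by
      have h3 : (⟨v, hVL hv⟩ : Lg) ∈ ⨆ i, P₁ i := by
        rw [eq_neg_of_add_eq_zero_left hsum]
        exact Submodule.neg_mem _ (Submodule.sum_mem _ fun i _ => le_iSup P₁ i (hx i))
      exact (Submodule.disjoint_def.1 hd.disj) _ hv h3
    have h3 : ∑ i, x i = 0 := by rwa [h2, zero_add] at hsum
    have h4 := (iSupIndep_iff_finsetSum_eq_zero_imp_eq_zero P₁).1 hd.indep Finset.univ
      x (fun i _ => hx i) h3
    refine ⟨congrArg Subtype.val h2, funext fun i => ?_⟩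
    rw [← hxt i, h4 i (Finset.mem_univ i)]
    rfl
  · intro i hcon
    exact hd.inf i (Module.Finite.equiv
      (Submodule.equivMapOfInjective Lg.subtype Lg.injective_subtype (P₁ i)).symm)
  · intro j r y hy hli
    rw [← Submodule.map_iSup] at hy
    choose x hx hxy using hy
    have hxli : LinearIndependent ℚ x := by
      refine LinearIndependent.of_comp Lg.subtype ?_
      convert hli using 1
      funext s
      exact hxy s
    have h4 := hfree j r x 0 Fin.elim0 (fun s => Submodule.mem_sup_right (hx s))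
      (fun s => s.elim0) (by
        intro c hc
        have h8 : (⨆ i : {i // i ≠ j}, P₁ i) ≤ ⨆ i, P₁ i :=
          iSup_le fun i => le_iSup P₁ (i : Fin (m + 1))
        have h5 : ∑ s, c s • x s ∈ ⨆ i, P₁ i := Submodule.sum_mem _ fun s _ =>
          Submodule.smul_mem _ _ (h8 (hx s))
        have h6 := (Submodule.disjoint_def.1 hd.disj) _ hc h5
        funext s
        exact (Fintype.linearIndependent_iff.1 hxli) c h6 s) (fun c _ => Subsingleton.elim _ _)
    have h5 := h4.comp (f := fun s : Fin r => (Sum.inl ((), s) : (Unit × Fin r) ⊕ (Unit × Fin 0)))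
      (fun a b h => by simpa using h)
    convert h5 using 1
    funext s
    exact (hxy s).symm

/-- finitely many elements of the span of a rational space -/
theorem exists_coord (S : Submodule ℚ ℂ) {n : ℕ} {w : Fin n → ℂ}
    (hw : ∀ i, w i ∈ Submodule.span Qa (S : Set ℂ)) : ∃ (r : ℕ) (t : Fin r → ℂ) (A : Fin n → Fin r → Qa),
      (∀ s, t s ∈ S) ∧ LinearIndependent ℚ t ∧ ∀ i, w i = ∑ s, algebraMap Qa ℂ (A i s) * t s := by
  classical
  choose f hf hfw using fun i => Submodule.mem_span_finite_of_mem_span (hw i)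
  set F : Submodule ℚ ℂ := Submodule.span ℚ ((Finset.univ.biUnion f : Finset ℂ) : Set ℂ) with hF
  have hFf : Module.Finite ℚ F := FiniteDimensional.span_finset ℚ _
  have hFS : F ≤ S := by
    refine Submodule.span_le.2 fun x hx => ?_
    obtain ⟨i, -, hi⟩ := Finset.mem_biUnion.1 (Finset.mem_coe.1 hx)
    exact hf i hi
  set b := Module.finBasis ℚ F with hb
  have h1 : (F : Set ℂ) ⊆ Submodule.span Qa (Set.range fun i => ((b i : F) : ℂ)) := by
    intro x hx
    have h2 := congrArg (fun z : F => (z : ℂ)) (b.sum_repr ⟨x, hx⟩)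
    simp only [Submodule.coe_sum, Submodule.coe_smul] at h2
    rw [SetLike.mem_coe, ← h2]
    refine Submodule.sum_mem _ fun i _ => ?_
    have h3 : (b.repr ⟨x, hx⟩ i) • ((b i : F) : ℂ) =
        ((b.repr ⟨x, hx⟩ i : ℚ) : Qa) • ((b i : F) : ℂ) := by
      rw [Algebra.smul_def ((b.repr ⟨x, hx⟩ i : ℚ) : Qa), map_ratCast, Rat.smul_def]
    rw [h3]
    exact Submodule.smul_mem _ _ (Submodule.subset_span ⟨i, rfl⟩)
  have h2 : ∀ i, ∃ a : Fin (finrank ℚ F) → Qa, ∑ s, a s • ((b s : F) : ℂ) = w i := by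
    intro i
    refine (Submodule.mem_span_range_iff_exists_fun Qa).1 ?_
    have h3 : Submodule.span Qa ((f i : Finset ℂ) : Set ℂ) ≤
        Submodule.span Qa (Set.range fun i => ((b i : F) : ℂ)) := by
      refine Submodule.span_le.2 fun x hx => h1 ?_
      exact Submodule.subset_span (Finset.mem_coe.2 (Finset.mem_biUnion.2 ⟨i, Finset.mem_univ _, hx⟩))
    exact h3 (hfw i)
  choose A hA using h2
  refine ⟨finrank ℚ F, fun i => ((b i : F) : ℂ), A, fun s => hFS (b s).2,
    b.linearIndependent.map' F.subtype (Submodule.ker_subtype F), fun i => ?_⟩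
  rw [← hA i]
  exact Finset.sum_congr rfl fun s _ => Algebra.smul_def _ _

/-- **No relations with coefficients in a given finite dimensional space, in any number of
variables.** -/
theorem kummer_dec (D m : ℕ) {V : Submodule ℚ ℂ} (hVL : V ≤ Lg) (hVf : Module.Finite ℚ V)
    (W : Submodule Qa ℂ) (hWf : Module.Finite Qa W) :
    ∃ T : Fin (m + 1) → Submodule ℚ ℂ, V ⊔ ⨆ i, T i = Lg ∧
      (∀ v ∈ V, ∀ t : Fin (m + 1) → ℂ, (∀ i, t i ∈ T i) → v + ∑ i, t i = 0 → v = 0 ∧ t = 0) ∧
      (∀ i, ¬ Module.Finite ℚ (T i)) ∧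
      ∀ (j : Fin (m + 1)) (n : ℕ) (y : Fin n → ℂ),
        (∀ i, y i ∈ Submodule.span Qa
          (insert 1 ((V ⊔ ⨆ i : {i // i ≠ j}, T i : Submodule ℚ ℂ) : Set ℂ))) →
        (∀ c : Fin n → Qa, ∑ i, c i • y i ∈ Submodule.span Qa (insert 1 (V : Set ℂ)) → c = 0) →
        ∀ P : MvPolynomial (Fin n) ℂ, (∀ s, P.coeff s ∈ W) → P.totalDegree ≤ D →
          eval y P = 0 → P = 0 := by
  classical
  have hinfQ : Infinite Qa := CharZero.infinite _
  let v := Module.finBasis ℚ V
  let w := Module.finBasis Qa W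
  let θ : Fin (finrank ℚ V) ⊕ Fin (finrank Qa W) → ℂ :=
    Sum.elim (fun i => ((v i : V) : ℂ)) (fun i => ((w i : W) : ℂ))
  have hVA : ∀ x ∈ V, x ∈ Aff Qa θ := by
    intro x hx
    have h2 := congrArg (fun z : V => (z : ℂ)) (v.sum_repr ⟨x, hx⟩)
    simp only [Submodule.coe_sum, Submodule.coe_smul] at h2
    rw [← h2]
    refine Submodule.sum_mem _ fun i _ => ?_
    have h3 : (v.repr ⟨x, hx⟩ i) • ((v i : V) : ℂ) =
        ((v.repr ⟨x, hx⟩ i : ℚ) : Qa) • ((v i : V) : ℂ) := by
      rw [Algebra.smul_def ((v.repr ⟨x, hx⟩ i : ℚ) : Qa), map_ratCast, Rat.smul_def]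
    rw [h3]
    exact Submodule.smul_mem _ _ (Aff.mem θ (Sum.inl i))
  have hVA' : Submodule.span Qa (insert 1 (V : Set ℂ)) ≤ Aff Qa θ := by
    refine Submodule.span_le.2 ?_
    rintro _ (rfl | hx)
    · exact Aff.one θ
    · exact hVA _ hx
  have hWe : W = Submodule.span Qa (Set.range fun i => aeval θ
      ((fun i => X (Sum.inr i) : Fin (finrank Qa W) →
        MvPolynomial (Fin (finrank ℚ V) ⊕ Fin (finrank Qa W)) Qa) i)) := by
    simp only [aeval_X]
    have h1 : (fun i => θ (Sum.inr i)) = W.subtype ∘ w := rfl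
    rw [h1, Set.range_comp, ← Submodule.map_span, w.span_eq, Submodule.map_top,
      Submodule.range_subtype]
  obtain ⟨T, h1, h2, h3, h4⟩ := decQ θ hVL hVf hVA (D := 1 + (D + 1)) (by omega) m
  refine ⟨T, h1, h2, h3, ?_⟩
  intro j n y hy hind P hP hPD hPy
  set S : Submodule ℚ ℂ := ⨆ i : {i // i ≠ j}, T i with hS
  have hdec : ∀ i, ∃ p ∈ Submodule.span Qa (insert 1 (V : Set ℂ)),
      ∃ q ∈ Submodule.span Qa (S : Set ℂ), p + q = y i := by
    intro i
    refine Submodule.mem_sup.1 ?_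
    have h5 : Submodule.span Qa (insert 1 ((V ⊔ S : Submodule ℚ ℂ) : Set ℂ)) ≤
        Submodule.span Qa (insert 1 (V : Set ℂ)) ⊔ Submodule.span Qa (S : Set ℂ) := by
      refine Submodule.span_le.2 ?_
      rintro _ (rfl | hx)
      · exact Submodule.mem_sup_left (Submodule.subset_span (Or.inl rfl))
      · obtain ⟨a, ha, b, hb, rfl⟩ := Submodule.mem_sup.1 hx
        exact Submodule.add_mem_sup (Submodule.subset_span (Or.inr ha)) (Submodule.subset_span hb)
    exact h5 (hy i)
  choose p hp q hq hpq using hdec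
  obtain ⟨r, t, A, ht, hti, hqA⟩ := exists_coord S hq
  have ho := h4 j r t ht hti
  have hAi : LinearIndependent Qa A := by
    rw [Fintype.linearIndependent_iff]
    intro c hc
    have h5 : ∑ i, c i • q i = 0 := by
      have h6 : ∀ s, ∑ i, c i * A i s = 0 := by
        intro s
        have := congrFun hc s
        simpa [Finset.sum_apply] using this
      calc ∑ i, c i • q i = ∑ s, algebraMap Qa ℂ (∑ i, c i * A i s) * t s := by
            simp only [hqA, Algebra.smul_def, Finset.mul_sum, map_sum, map_mul, Finset.sum_mul]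
            rw [Finset.sum_comm]
            exact Finset.sum_congr rfl fun _ _ => Finset.sum_congr rfl fun _ _ => by ring
        _ = 0 := Finset.sum_eq_zero fun s _ => by rw [h6, map_zero, zero_mul]
    have h7 := hind c (by
      have h8 : ∑ i, c i • y i = ∑ i, c i • p i := by
        rw [← add_zero (∑ i, c i • p i), ← h5, ← Finset.sum_add_distrib]
        exact Finset.sum_congr rfl fun i _ => by rw [← smul_add, hpq]
      rw [h8]
      exact Submodule.sum_mem _ fun i _ => Submodule.smul_mem _ _ (hp i))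
    intro i
    exact congrFun h7 i
  obtain ⟨B, hB⟩ := exists_right_inverse A hAi
  have hoy : OTR Qa (1 + (D + 1)) θ y := by
    refine ho.affine A p (fun i => hVA' (hp i)) (fun i => ?_) ?_
    · rw [← hpq i, hqA i, add_comm]
    · intro Y
      refine ⟨fun s => ∑ i, algebraMap Qa ℂ (B s i) * Y i, fun i => ?_⟩
      have h5 : ∀ i', ∑ s, algebraMap Qa ℂ (A i s) * algebraMap Qa ℂ (B s i') =
          if i = i' then 1 else 0 := by
        intro i'
        rw [← map_one (algebraMap Qa ℂ), ← map_zero (algebraMap Qa ℂ), ← apply_ite, ← hB i i', map_sum]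
        exact Finset.sum_congr rfl fun s _ => (map_mul _ _ _).symm
      simp only [Finset.mul_sum]
      rw [Finset.sum_comm]
      have h6 : ∀ i', ∑ s, algebraMap Qa ℂ (A i s) * (algebraMap Qa ℂ (B s i') * Y i') =
          if i = i' then Y i' else 0 := by
        intro i'
        have h7 : ∑ s, algebraMap Qa ℂ (A i s) * (algebraMap Qa ℂ (B s i') * Y i') =
            (∑ s, algebraMap Qa ℂ (A i s) * algebraMap Qa ℂ (B s i')) * Y i' := by
          rw [Finset.sum_mul]
          exact Finset.sum_congr rfl fun s _ => by ring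
        rw [h7, h5, ite_mul, one_mul, zero_mul]
      rw [Finset.sum_congr rfl fun i' _ => h6 i']
      simp
  refine otr_no (θ := θ) (d := 1) (D := D + 1)
    (fun i => X (Sum.inr i) : Fin (finrank Qa W) →
        MvPolynomial (Fin (finrank ℚ V) ⊕ Fin (finrank Qa W)) Qa) (fun i => ?_) hoy P ?_
    (hPD.trans (Nat.le_succ D)) hPy
  · rw [totalDegree_X]
  · intro s
    rw [← hWe]
    exact hP s

end Pool.Agent.Helper71.TF
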